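import Mathlib
import Pool.Agent.R116.AF.DivApp

set_option autoImplicit false

namespace Pool.Agent.Results.MP_79499b_co.LiftablePrimeFactors

open Filter Topology

/-- `E` is a difference set with the Singer parameters in the finite group `Q` (not assumed
abelian): `v = (n ^ m - 1) / (n - 1)`, `k = (n ^ (m - 1) - 1) / (n - 1)`,
`lambda = (n ^ (m - 2) - 1) / (n - 1)`. -/
def IsSinger {Q : Type} [Group Q] [Fintype Q] [DecidableEq Q] (E : Finset Q) (n m : ℕ) : Prop :=
  Fintype.card Q * (n - 1) = n ^ m - 1 ∧ E.card * (n - 1) = n ^ (m - 1) - 1 ∧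
    ∀ g : Q, g ≠ 1 →
      ((E ×ˢ E).filter (fun p : Q × Q => p.1 * p.2⁻¹ = g)).card * (n - 1) = n ^ (m - 2) - 1

/-- The difference set `E` lifts to the group `G`: there are a surjective homomorphism `π : G → Q`
with a kernel of order `n - 1` and a subset `D` of `G`, mapped by `π` bijectively onto the
complement of `E`, such that each `g ∈ G` outside the kernel has exactly `n ^ (m - 2)`
representations `g = d₁ * d₂⁻¹` with `d₁, d₂ ∈ D` (so `D` is a relative difference set in `G`, with
forbidden subgroup the kernel). -/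
def LiftsTo {Q : Type} [Group Q] [Fintype Q] [DecidableEq Q] (E : Finset Q) (n m : ℕ)
    (G : Type) [Group G] [Fintype G] [DecidableEq G] : Prop :=
  ∃ (π : G →* Q) (D : Finset G), Function.Surjective π ∧ Nat.card π.ker = n - 1 ∧
    D.image π = Eᶜ ∧ Set.InjOn π D ∧
    ∀ g : G, π g ≠ 1 → ((D ×ˢ D).filter (fun p : G × G => p.1 * p.2⁻¹ = g)).card = n ^ (m - 2)

/-- There is a difference set with the Singer parameters of `(n, m)` which lifts to a finite group
`G` with a normal Sylow 2-subgroup, i.e. with a normal subgroup of 2-power order and odd index.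
(Every nilpotent group and, if `n` is even, every group `G` of order `n ^ m - 1` has one.) -/
def Liftable (n m : ℕ) : Prop :=
  ∃ (Q : Type) (_ : Group Q) (_ : Fintype Q) (_ : DecidableEq Q) (E : Finset Q)
    (G : Type) (_ : Group G) (_ : Fintype G) (_ : DecidableEq G),
    (∃ K : Subgroup G, K.Normal ∧ (∃ s, Nat.card K = 2 ^ s) ∧ Odd K.index) ∧
    IsSinger E n m ∧ LiftsTo E n m G

/-- Let `k ≥ 2`, `a ≥ 1` and let `e` be odd. For almost all integers `N` with exactly `k` prime
factors (counted with multiplicity; all but a proportion tending to `0` of those up to `X`, as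
`X → ∞`) there is no even `m ≥ 4` such that a difference set with the Singer parameters of
`((a * N) ^ e, m)` lifts to a finite group with a normal Sylow 2-subgroup. -/
theorem result (k a e : ℕ) (hk : 2 ≤ k) (ha : 1 ≤ a) (he : Odd e) :
    Tendsto (fun X : ℕ =>
      ({N : ℕ | N ≤ X ∧ N.primeFactorsList.length = k ∧
          ∃ m, Even m ∧ 4 ≤ m ∧ Liftable ((a * N) ^ e) m}.ncard : ℝ) /
        ({N : ℕ | N ≤ X ∧ N.primeFactorsList.length = k}.ncard : ℝ)) atTop (𝓝 0) :=
  Pool.Agent.R116.AF.density_exO Pool.Agent.R116.AF.exO_lift k a e hk ha he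

end Pool.Agent.Results.MP_79499b_co.LiftablePrimeFactors
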