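import Mathlib
import Pool.Agent.R116.SingPow2

set_option autoImplicit false

namespace Pool.Agent.Results.MP_79499b_co.PowerOrders

open Filter Topology

/-- Some finite group `G` (not assumed abelian) of order `(n ^ m - 1) / (n - 1)` contains a
difference set `D` with the Singer parameters:
`k = (n ^ (m - 1) - 1) / (n - 1)`, `lambda = (n ^ (m - 2) - 1) / (n - 1)`. -/
def HasSingerDifferenceSet (n m : ℕ) : Prop :=
  ∃ (G : Type) (_ : Group G) (_ : Fintype G) (_ : DecidableEq G) (D : Finset G),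
    Fintype.card G * (n - 1) = n ^ m - 1 ∧ D.card * (n - 1) = n ^ (m - 1) - 1 ∧
    ∀ g : G, g ≠ 1 →
      ((D ×ˢ D).filter (fun p : G × G => p.1 * p.2⁻¹ = g)).card * (n - 1) = n ^ (m - 2) - 1

/-- Perfect power orders. Let `i ≥ 3` be odd and let `K` be given.

(1) For every `ε > 0` there is `C` such that for all `X ≥ 3` at most `C X (log X) ^ (ε - 1)` integers
`2 ≤ n ≤ X` are such that, for some odd `m ≥ 3` whose least prime factor is at most `K`, some finite
group contains a difference set with the Singer parameters of `(n ^ i, m)`. (By Singer's theorem all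
prime powers `n` do occur, and their number up to `X` is asymptotic to `X / log X`.)

(2) The number of the integers `2 ≤ n ≤ X` which are not prime powers and such that, for some odd
`m` with a divisor `3 ≤ L ≤ K`, some finite group contains a difference set with the Singer
parameters of `(n ^ i, m)`, is `o(X / log X)`, where in case `L` is a prime and `i` is a power of `L`
only the pairs with `n ≡ 1 (mod 4)` and `m ≡ 3 (mod 4)` are considered. -/
theorem result (i : ℕ) (hi : Odd i) (_hi3 : 3 ≤ i) (K : ℕ) :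
    (∀ ε : ℝ, 0 < ε → ∃ C : ℝ, 0 < C ∧ ∀ X : ℕ, 3 ≤ X →
      ({n : ℕ | 2 ≤ n ∧ n ≤ X ∧
        ∃ m : ℕ, Odd m ∧ 3 ≤ m ∧ m.minFac ≤ K ∧ HasSingerDifferenceSet (n ^ i) m}.ncard : ℝ) ≤
      C * X * (Real.log X) ^ (ε - 1)) ∧
    Tendsto (fun X : ℕ =>
      ({n : ℕ | 2 ≤ n ∧ n ≤ X ∧ ¬ IsPrimePow n ∧
        ∃ m L : ℕ, Odd m ∧ 3 ≤ L ∧ L ≤ K ∧ L ∣ m ∧
          (¬ (L.Prime ∧ ∃ a, i = L ^ a) ∨ (n % 4 = 1 ∧ m % 4 = 3)) ∧
          HasSingerDifferenceSet (n ^ i) m}.ncard : ℝ) * Real.log X / X)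
      atTop (𝓝 0) :=
  ⟨fun ε hε => Pool.Agent.R116.SP.cntK hi K ε hε, Pool.Agent.R116.SP.appK hi K⟩

end Pool.Agent.Results.MP_79499b_co.PowerOrders
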